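import Pool.Agent.Q211.FS.KSp

/-!
# The irrational numbers need not be a k-space in ZF

In the basic Cohen model (generated over a countable transitive model of ZFC by an infinite set `A`
of mutually generic real numbers, without an enumeration of `A`), the set `A` is dense in the space
of the irrational numbers, hence it is not closed. But the intersection of `A` with a compact set
`K` of irrational numbers is finite: let `e` be a finite support of `K`. Since `K` is compact, every
rational number has a neighbourhood that does not meet `K`; a condition that forces this for a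
rational number in the interval of the condition for the Cohen real `a i` may be restricted to `e`,
so `a i` belongs to `K` only if `i` is in `e`.
-/

set_option autoImplicit false

namespace Pool.Agent.Results.MP_478558_lc.IrrationalsNotKSpace

open Pool.Agent.W868 Pool.Agent.W868.PName Pool.Agent.Q211.SY Pool.Agent.Q211.FS

/-- There is a countable transitive model of ZF in which the space of the irrational numbers is
not a `k`-space. -/
theorem result : ∃ M : Set ZFSet.{0}, M.Countable ∧ IsZF M ∧
    ∃ X ∈ M, ∃ τ ∈ M, IsIrrationals M X ∧ IsUsualTop M X τ ∧ ¬ KSpaceIn M X τ := by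
  obtain ⟨π, h⟩ := exists_CM {√2} (Set.countable_singleton _)
  have hM := h.isZF
  have hQM : Qc ∈ SC.Ms π := by
    rw [← hat_Qc π]
    exact Sys.mem_Ms h.qc (SC.hs_check _)
  have hLM : LQ ∈ SC.Ms π := by
    rw [← hat_LQ π]
    exact Sys.mem_Ms h.lq (SC.hs_check _)
  obtain ⟨X, hXM, hX⟩ := exists_irrationals hM hQM hLM
  obtain ⟨τ, hτM, hτ⟩ := exists_top hM hQM hLM hXM (fun z hz => by
    obtain ⟨-, x, -, hx⟩ := (hX z).1 hz
    exact ⟨x, hx⟩)
  exact ⟨_, (π.cnt.mono fun _ hx => hx.1).image _, hM, X, hXM, τ, hτM, hX, hτ,
    not_kspace h rfl hX hXM hτM hτ⟩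

end Pool.Agent.Results.MP_478558_lc.IrrationalsNotKSpace
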